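import Pool.Agent.H96Z.BG.Signed

set_option autoImplicit false

namespace Pool.Agent.H96Z.BG

open Module Polynomial Pool.Agent.Helper703.KL

abbrev G := Fin 3 × Bool

def act (i : G) (p : Fin 3 → ℤ) : Fin 3 → ℤ :=
  fun j => if j = i.1 then (if i.2 then 1 else -1) - p j else p j

lemma act_act (i : G) (p : Fin 3 → ℤ) : act i (act i p) = p := by
  funext j
  simp only [act]
  split_ifs <;> ring

def perm (i : G) : Equiv.Perm (Fin 3 → ℤ) := Function.Involutive.toPerm (act i) (act_act i)

lemma perm_apply (i : G) (p : Fin 3 → ℤ) : perm i p = act i p := rfl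

lemma cube_apply (i k : G) : cube i k = if i = k then 1 else if i.1 = k.1 then 0 else 2 := rfl

lemma liftable : cube.IsLiftable perm := by
  intro i k
  rw [cube_apply]
  split_ifs with h1 h2
  · subst h1
    ext p j
    simp [perm_apply, act_act]
  · simp
  · ext p j
    simp only [pow_two, Equiv.Perm.mul_apply, perm_apply, act, Equiv.Perm.one_apply]
    by_cases h3 : j = i.1
    · have h4 : j ≠ k.1 := fun h => h2 (h3.symm.trans h)
      simp [if_pos h3, if_neg h4]
    · by_cases h4 : j = k.1
      · simp [if_neg h3, if_pos h4]
      · simp [if_neg h3, if_neg h4]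

variable {W : Type*} [Group W] (cs : CoxeterSystem cube W)

noncomputable def phi : W →* Equiv.Perm (Fin 3 → ℤ) := cs.lift ⟨perm, liftable⟩

lemma phi_simple (i : G) : phi cs (cs.simple i) = perm i := cs.lift_apply_simple liftable i

noncomputable def pos (w : W) : Fin 3 → ℤ := phi cs w 0

lemma pos_one : pos cs 1 = 0 := by simp [pos]

lemma pos_mul (u w : W) : pos cs (u * w) = phi cs u (pos cs w) := by simp [pos]

lemma pos_simple_mul (i : G) (w : W) : pos cs (cs.simple i * w) = act i (pos cs w) := by
  rw [pos_mul, phi_simple, perm_apply]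

def posL (l : List G) : Fin 3 → ℤ := l.foldr act 0

lemma pos_word (l : List G) : pos cs (cs.wordProd l) = posL l := by
  induction l with
  | nil => simp [pos_one, posL]
  | cons i l ih => rw [cs.wordProd_cons, pos_simple_mul, ih]; rfl

lemma comm_simple {i k : G} (h : i.1 ≠ k.1) : Commute (cs.simple i) (cs.simple k) := by
  have h1 := cs.simple_mul_simple_pow i k
  rw [cube_apply, if_neg (fun h2 => h (by rw [h2])), if_neg h, pow_two] at h1
  have h2 := cs.simple_mul_simple_self i
  have h3 := cs.simple_mul_simple_self k
  calc cs.simple i * cs.simple k = cs.simple k * (cs.simple k * cs.simple i) * (cs.simple i *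
        cs.simple i) * cs.simple k := by
          rw [← mul_assoc (cs.simple k), h3, h2]; group
    _ = cs.simple k * (cs.simple k * cs.simple i * cs.simple i) * (cs.simple i * cs.simple k) := by
          group
    _ = cs.simple k * cs.simple i * ((cs.simple i * cs.simple k) * (cs.simple i * cs.simple k)) := by
          rw [mul_assoc (cs.simple k) (cs.simple i) (cs.simple i), h2, mul_one, h3, one_mul,
            h1, mul_one]
          calc cs.simple i * cs.simple k = (cs.simple i * cs.simple k)⁻¹ :=
                (eq_inv_of_mul_eq_one_left h1)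
            _ = _ := by rw [mul_inv_rev, cs.inv_simple, cs.inv_simple]
    _ = cs.simple k * cs.simple i := by rw [h1, mul_one]

noncomputable def tr (j : Fin 3) : W := cs.simple (j, true) * cs.simple (j, false)

noncomputable def tau1 (j : Fin 3) (k : ℤ) : W :=
  if k % 2 = 0 then tr cs j ^ (k / 2) else tr cs j ^ (k / 2) * cs.simple (j, true)

lemma simple_tr (j : Fin 3) (b : Bool) (m : ℤ) :
    cs.simple (j, b) * tr cs j ^ m = tr cs j ^ (-m) * cs.simple (j, b) := by
  have h : SemiconjBy (cs.simple (j, b)) (tr cs j) (tr cs j)⁻¹ := by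
    unfold SemiconjBy tr
    rw [mul_inv_rev, cs.inv_simple, cs.inv_simple]
    cases b
    · rw [mul_assoc]
    · rw [cs.simple_mul_simple_cancel_left, cs.simple_mul_simple_cancel_right]
  have := h.zpow_right m
  rw [inv_zpow'] at this
  exact this

lemma tr_pred (j : Fin 3) (m : ℤ) :
    tr cs j ^ (m - 1) = tr cs j ^ m * (cs.simple (j, false) * cs.simple (j, true)) := by
  rw [zpow_sub_one, tr, mul_inv_rev, cs.inv_simple, cs.inv_simple]

lemma simple_tau1 (j : Fin 3) (b : Bool) (k : ℤ) :
    cs.simple (j, b) * tau1 cs j k = tau1 cs j ((if b then 1 else -1) - k) := by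
  obtain ⟨m, rfl | rfl⟩ := Int.even_or_odd' k
  · cases b
    · rw [tau1, tau1, if_pos (by omega), if_neg (by simp only [Bool.false_eq_true, if_false]; omega),
        simple_tr, show ((if false = true then (1 : ℤ) else -1) - 2 * m) / 2 = -(2 * m / 2) - 1 by
          simp only [Bool.false_eq_true, if_false]; omega, tr_pred, mul_assoc,
        cs.simple_mul_simple_cancel_right]
    · rw [tau1, tau1, if_pos (by omega), if_neg (by simp only [if_true]; omega),
        simple_tr, show ((if true = true then (1 : ℤ) else -1) - 2 * m) / 2 = -(2 * m / 2) by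
          simp only [if_true]; omega]
  · cases b
    · rw [tau1, tau1, if_neg (by omega), if_pos (by simp only [Bool.false_eq_true, if_false]; omega),
        ← mul_assoc, simple_tr,
        show ((if false = true then (1 : ℤ) else -1) - (2 * m + 1)) / 2 = -((2 * m + 1) / 2) - 1 by
          simp only [Bool.false_eq_true, if_false]; omega, tr_pred, mul_assoc]
    · rw [tau1, tau1, if_neg (by omega), if_pos (by simp only [if_true]; omega),
        ← mul_assoc, simple_tr,
        show ((if true = true then (1 : ℤ) else -1) - (2 * m + 1)) / 2 = -((2 * m + 1) / 2) by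
          simp only [if_true]; omega, cs.simple_mul_simple_cancel_right]

lemma comm_tau1 {i : G} {j : Fin 3} (h : i.1 ≠ j) (k : ℤ) :
    Commute (cs.simple i) (tau1 cs j k) := by
  have h1 : ∀ b, Commute (cs.simple i) (cs.simple (j, b)) := fun b => comm_simple cs h
  have h2 : Commute (cs.simple i) (tr cs j) := (h1 true).mul_right (h1 false)
  rw [tau1]
  split_ifs
  · exact h2.zpow_right _
  · exact (h2.zpow_right _).mul_right (h1 true)

noncomputable def tau (p : Fin 3 → ℤ) : W := tau1 cs 0 (p 0) * (tau1 cs 1 (p 1) * tau1 cs 2 (p 2))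

lemma simple_tau (i : G) (p : Fin 3 → ℤ) : cs.simple i * tau cs p = tau cs (act i p) := by
  obtain ⟨j, b⟩ := i
  fin_cases j
  · simp only [tau, act, Fin.zero_eta, if_true]
    rw [← mul_assoc, simple_tau1]
    simp
  · simp only [tau, act, Fin.mk_one, if_true]
    rw [← mul_assoc, (comm_tau1 cs (i := (1, b)) (j := 0) (by simp) _).eq, mul_assoc,
      ← mul_assoc (cs.simple _), simple_tau1]
    simp
  · simp only [tau, act, Fin.reduceFinMk, if_true]
    rw [← mul_assoc, (comm_tau1 cs (i := (2, b)) (j := 0) (by simp) _).eq, mul_assoc,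
      ← mul_assoc (cs.simple _), (comm_tau1 cs (i := (2, b)) (j := 1) (by simp) _).eq, mul_assoc,
      simple_tau1]
    simp

lemma tau_pos (w : W) : tau cs (pos cs w) = w := by
  induction w using cs.simple_induction_left with
  | one => simp [pos_one, tau, tau1]
  | mul_simple_left w i ih => rw [pos_simple_mul, ← simple_tau, ih]

lemma pos_inj {u w : W} (h : pos cs u = pos cs w) : u = w := by
  rw [← tau_pos cs u, h, tau_pos]

def len (p : Fin 3 → ℤ) : ℕ := (p 0).natAbs + (p 1).natAbs + (p 2).natAbs

lemma len_act (j : Fin 3) (b : Bool) (p : Fin 3 → ℤ) :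
    len (act (j, b) p) + (p j).natAbs = len p + ((if b then 1 else -1) - p j).natAbs := by
  fin_cases j <;> simp [len, act] <;> omega

lemma len_le (n : ℕ) : ∀ w : W, cs.length w = n → len (pos cs w) ≤ n := by
  induction n with
  | zero =>
    intro w hw
    rw [cs.length_eq_zero_iff] at hw
    subst hw
    simp [pos_one, len]
  | succ n ih =>
    intro w hw
    have hw1 : w ≠ 1 := by
      rintro rfl
      rw [cs.length_one] at hw
      omega
    obtain ⟨⟨j, b⟩, hj⟩ := cs.exists_leftDescent_of_ne_one hw1
    have hj' := cs.isLeftDescent_iff.1 hj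
    have h1 := ih (cs.simple (j, b) * w) (by omega)
    rw [pos_simple_mul] at h1
    have h2 := len_act j b (pos cs w)
    cases b <;> simp at h2 <;> omega

lemma le_len (n : ℕ) : ∀ w : W, len (pos cs w) = n → cs.length w ≤ n := by
  induction n with
  | zero =>
    intro w hw
    have : w = 1 := by
      apply pos_inj cs
      rw [pos_one]
      funext j
      unfold len at hw
      fin_cases j <;> simp <;> omega
    rw [this, cs.length_one]
  | succ n ih =>
    intro w hw
    have hj : ∃ j, pos cs w j ≠ 0 := by
      by_contra h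
      push Not at h
      simp [len, h] at hw
    obtain ⟨j, hj⟩ := hj
    have : ∃ b : Bool, len (act (j, b) (pos cs w)) = n := by
      rcases lt_or_gt_of_ne hj with h | h
      · refine ⟨false, ?_⟩
        have h2 := len_act j false (pos cs w)
        simp at h2; omega
      · refine ⟨true, ?_⟩
        have h2 := len_act j true (pos cs w)
        simp at h2; omega
    obtain ⟨b, hb⟩ := this
    have h1 := ih (cs.simple (j, b) * w) (by rw [pos_simple_mul]; exact hb)
    have h2 := cs.length_simple_mul w (j, b)
    omega

theorem length_eq (w : W) : cs.length w = len (pos cs w) :=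
  le_antisymm (le_len cs _ w rfl) (len_le cs _ w rfl)

lemma length_word (l : List G) : cs.length (cs.wordProd l) = len (posL l) := by
  rw [length_eq, pos_word]

lemma desc_iff (j : Fin 3) (b : Bool) (w : W) :
    cs.length (cs.simple (j, b) * w) < cs.length w ↔
      (if b then 0 < pos cs w j else pos cs w j < 0) := by
  rw [length_eq, length_eq, pos_simple_mul]
  have h2 := len_act j b (pos cs w)
  cases b <;> simp at h2 ⊢ <;> omega

lemma phi_coord (w : W) (j : Fin 3) : ∀ p q : Fin 3 → ℤ, p j = q j → phi cs w p j = phi cs w q j := by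
  induction w using cs.simple_induction_left with
  | one => intro p q h; simpa using h
  | mul_simple_left w i ih =>
    intro p q h
    simp only [map_mul, Equiv.Perm.mul_apply, phi_simple, perm_apply, act, ih p q h]

lemma pos_refl (u : W) (i : G) (a : W) {j : Fin 3} (h : j ≠ i.1) :
    pos cs (u * cs.simple i * u⁻¹ * a) j = pos cs a j := by
  rw [mul_assoc, mul_assoc, pos_mul, pos_simple_mul,
    phi_coord cs u j _ (pos cs (u⁻¹ * a)) (by simp [act, h]), ← pos_mul, mul_inv_cancel_left]

lemma BLe_pos {y w : W} (h : BLe cs y w) (j : Fin 3) (hw : pos cs w j = 0) : pos cs y j = 0 := by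
  induction h with
  | refl => exact hw
  | tail _ h2 ih =>
    obtain ⟨t, ⟨u, i, rfl⟩, rfl, h3⟩ := h2
    apply ih
    by_cases hj : j = i.1
    · exfalso
      rename_i a _
      rw [length_eq, length_eq] at h3
      have h4 := fun j' (h : j' ≠ i.1) => pos_refl cs u i a h
      rw [← hj] at h4
      unfold len at h3
      fin_cases j
      · rw [h4 1 (by simp), h4 2 (by simp)] at h3
        simp only [Fin.zero_eta] at hw
        omega
      · rw [h4 0 (by simp), h4 2 (by simp)] at h3
        simp only [Fin.mk_one] at hw
        omega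
      · rw [h4 0 (by simp), h4 1 (by simp)] at h3
        simp only [Fin.reduceFinMk] at hw
        omega
    · rw [← pos_refl cs u i _ hj]; exact hw

end Pool.Agent.H96Z.BG
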