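import Pool.Agent.Helper703.KL.Defs

set_option autoImplicit false

/-! Definitions for the basic right-cell equivalences: Kazhdan-Lusztig polynomials and the signed
Kazhdan-Lusztig basis, `μ`, the `a`-function, distinguished involutions, reduced and finite
factorisations.  The ring `A = ℤ[v, v⁻¹]` (`v = q^{1/2}`), the Bruhat order `BLe`, `IsHecke` and
`IsBar` are those of `Pool.Agent.Helper703.KL.Defs`. -/

namespace Pool.Agent.H96Z.BG

open Module Polynomial Pool.Agent.Helper703.KL

variable {B : Type*} {M : CoxeterMatrix B} {W : Type*} [Group W] (cs : CoxeterSystem M W)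
variable {H : Type*} [Ring H] [Algebra A H]

/-- `P y w` are the Kazhdan-Lusztig polynomials `P_{y,w}` and `C` is the Kazhdan-Lusztig basis
`C_w = ∑_{y ≤ w} (-1)^{l(w)-l(y)} q^{l(w)/2-l(y)} P_{y,w}(q⁻¹) T_y`: the elements `C_w` are fixed by
the bar involution, `P_{w,w} = 1` and `deg P_{y,w} ≤ (l(w)-l(y)-1)/2` for `y < w`. -/
structure IsKLData (T : Basis W A H) (bar : H →+* H) (P : W → W → ℤ[X]) (C : Basis W A H) :
    Prop where
  supp : ∀ y w, ¬ BLe cs y w → P y w = 0
  diag : ∀ w, P w w = 1
  deg : ∀ y w, BLe cs y w → y ≠ w → 2 * (P y w).natDegree + 1 + cs.length y ≤ cs.length w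
  repr : ∀ w y, T.repr (C w) y = (-1) ^ (cs.length w + cs.length y) *
    v ((cs.length w : ℤ) - 2 * (cs.length y : ℤ)) * aeval (v (-2)) (P y w)
  bar_eq : ∀ w, bar (C w) = C w

/-- for `y < w`: the coefficient of `q^{(l(w)-l(y)-1)/2}` in `P_{y,w}` (zero if the exponent is not
an integer) -/
noncomputable def muLt (P : W → W → ℤ[X]) (y w : W) : ℤ :=
  if Odd (cs.length w - cs.length y) then (P y w).coeff ((cs.length w - cs.length y - 1) / 2)
  else 0

open Classical in
/-- `μ(y, w)`: symmetric, zero on equal or incomparable pairs -/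
noncomputable def muKL (P : W → W → ℤ[X]) (y w : W) : ℤ :=
  if BLe cs y w ∧ y ≠ w then muLt cs P y w
  else if BLe cs w y ∧ w ≠ y then muLt cs P w y else 0

/-- the structure constants: `C_x C_y = ∑_z h_{x,y,z} C_z` -/
noncomputable def hc (C : Basis W A H) (x y z : W) : A := C.repr (C x * C y) z

/-- `q^{-n/2} h_{x,y,z} ∈ ℤ[q^{-1/2}]` for all `x, y` -/
def ABound (C : Basis W A H) (z : W) (n : ℕ) : Prop :=
  ∀ x y : W, ∀ k : ℤ, 0 < k → (v (-(n : ℤ)) * hc C x y z).coeff k = 0

/-- Lusztig's `a`-function: the least `n` with `ABound C z n`, and `∞` if there is none (the least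
such integer is `≥ 0` because `h_{e,z,z} = 1`) -/
noncomputable def aFn (C : Basis W A H) (z : W) : ℕ∞ := ⨅ (n : ℕ) (_ : ABound C z n), (n : ℕ∞)

/-- distinguished involutions: `l(z) - a(z) - 2 δ(z) = 0` with `δ(z) = deg P_{e,z}` -/
def IsDist (P : W → W → ℤ[X]) (C : Basis W A H) (z : W) : Prop :=
  (cs.length z : ℕ∞) = aFn C z + 2 * ((P 1 z).natDegree : ℕ∞)

/-- `z = x.y` -/
def Red2 (z x y : W) : Prop := z = x * y ∧ cs.length z = cs.length x + cs.length y

/-- `z = x.u.y` -/
def Red3 (z x u y : W) : Prop :=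
  z = x * u * y ∧ cs.length z = cs.length x + cs.length u + cs.length y

/-- `u` lies in a finite standard parabolic subgroup `W_I` -/
def FinPar (u : W) : Prop :=
  ∃ I : Set B, u ∈ Subgroup.closure (cs.simple '' I) ∧
    (Subgroup.closure (cs.simple '' I) : Set W).Finite

/-- `(x, u, y)` is a finite factorisation of `w`: `w = x.u.y` with `u` in a finite `W_I` -/
def FinFact (w x u y : W) : Prop := Red3 cs w x u y ∧ FinPar cs u

/-- maximality of `u` at the position `x.u.y` in `w`, Bruhat-order version -/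
def MaxBruhat (w x u y : W) : Prop :=
  FinFact cs w x u y ∧ ¬ ∃ x' u' y' p r : W, FinFact cs w x' u' y' ∧ BLe cs x' x ∧ BLe cs y' y ∧
    Red3 cs u' p u r ∧ cs.length u < cs.length u'

/-- maximality of the finite factorisation `(x, u, y)` of `w`, factor version -/
def MaxFact (w x u y : W) : Prop :=
  FinFact cs w x u y ∧ ¬ ∃ x' u' y' p r : W, FinFact cs w x' u' y' ∧ Red2 cs x x' p ∧
    Red2 cs y r y' ∧ Red3 cs u' p u r ∧ 0 < cs.length p + cs.length r

/-- The Coxeter matrix of type `A~_1 × A~_1 × A~_1`: generators `(j, b)`; `m = ∞` (coded `0`) inside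
a factor and `m = 2` between different factors. -/
def cube : CoxeterMatrix (Fin 3 × Bool) where
  M := Matrix.of fun i k => if i = k then 1 else if i.1 = k.1 then 0 else 2
  isSymm := by
    ext i k
    simp only [Matrix.transpose_apply, Matrix.of_apply, eq_comm]
  diagonal := by
    intro i
    simp
  off_diagonal := by
    intro i k h
    simp only [Matrix.of_apply, h, if_false]
    split_ifs <;> norm_num

end Pool.Agent.H96Z.BG
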