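import Pool.Agent.H96Z.BG.Cube

set_option autoImplicit false

namespace Pool.Agent.H96Z.BG

open Module Polynomial Pool.Agent.Helper703.KL

/-- degree at most `n` -/
def DegA (n : ℕ) (a : A) : Prop := ∀ k : ℤ, (n : ℤ) < k → a.coeff k = 0

noncomputable def ee : A := v 1 + v (-1)

lemma coeff_ee (a : A) (k : ℤ) : (ee * a).coeff k = a.coeff (k - 1) + a.coeff (k + 1) := by
  rw [ee, add_mul, Pool.Agent.Helper703.KL.coeff_add, coeff_v_mul, coeff_v_mul, sub_neg_eq_add]

lemma DegA.ee_mul {n : ℕ} {a : A} (h : DegA n a) : DegA (n + 1) (ee * a) := by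
  intro k hk
  rw [coeff_ee, h _ (by push_cast at hk; omega), h _ (by push_cast at hk; omega), add_zero]

lemma ee_ne_zero : ee ≠ 0 := by
  intro h2
  have h3 := coeff_ee 1 1
  rw [h2, zero_mul, Pool.Agent.Helper703.KL.coeff_zero, coeff_one, coeff_one] at h3
  norm_num at h3

section general

variable {B : Type*} {M : CoxeterMatrix B} {W : Type*} [Group W] {cs : CoxeterSystem M W}
variable {H : Type*} [Ring H] [Algebra A H]

/-- all coefficients have degree at most `n` -/
def Deg (D : Basis W A H) (n : ℕ) (h : H) : Prop := ∀ z, DegA n (D.repr h z)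

variable {T D : Basis W A H} {bar : H →+* H}

omit [Group W] in
lemma Deg.zero (n : ℕ) : Deg D n 0 := fun z k _ => by simp

omit [Group W] in
lemma Deg.add {n : ℕ} {a b : H} (ha : Deg D n a) (hb : Deg D n b) : Deg D n (a + b) :=
  fun z k hk => by
    rw [map_add, Finsupp.add_apply, Pool.Agent.Helper703.KL.coeff_add, ha z k hk, hb z k hk,
      add_zero]

omit [Group W] in
lemma Deg.sub {n : ℕ} {a b : H} (ha : Deg D n a) (hb : Deg D n b) : Deg D n (a - b) :=
  fun z k hk => by
    rw [map_sub, Finsupp.sub_apply, Pool.Agent.Helper703.KL.coeff_sub, ha z k hk, hb z k hk,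
      sub_zero]

omit [Group W] in
lemma Deg.zsmul {n : ℕ} {a : H} (m : ℤ) (ha : Deg D n a) : Deg D n (m • a) :=
  fun z k hk => by
    rw [map_zsmul, Finsupp.smul_apply, coeff_zsmul, ha z k hk, mul_zero]

omit [Group W] in
lemma Deg.sum {ι : Type*} {n : ℕ} (s : Finset ι) (f : ι → H) (h : ∀ i ∈ s, Deg D n (f i)) :
    Deg D n (∑ i ∈ s, f i) :=
  Finset.sum_induction f (Deg D n) (fun _ _ => Deg.add) (Deg.zero n) h

omit [Group W] in
lemma Deg.mono {n m : ℕ} {a : H} (ha : Deg D n a) (h : n ≤ m) : Deg D m a :=
  fun z k hk => ha z k (by omega)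

omit [Group W] in
lemma Deg.basis {n : ℕ} {a : A} (ha : DegA n a) (z : W) : Deg D n (a • D z) := by
  classical
  intro y k hk
  rw [map_smul, Finsupp.smul_apply, Basis.repr_self, Finsupp.single_apply, smul_eq_mul]
  split_ifs
  · rw [mul_one]; exact ha k hk
  · rw [mul_zero]; rfl

lemma thL_mul (i : B) (a h : H) : theta (opL cs T) i (a * h) = theta (opL cs T) i a * h := by
  rw [theta_apply, theta_apply, opL_apply, opL_apply, add_mul, smul_mul_assoc, smul_mul_assoc,
    mul_assoc]

lemma thL_down (hT : IsHecke cs T) (hb : IsBar cs T bar) (hC : IsKLBasis cs T bar D) (i : B)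
    (u : W) (hu : cs.length (cs.simple i * u) < cs.length u) :
    theta (opL cs T) i (D u) = ee • D u :=
  (isKL_L hC).theta_down (klModL hT hb) i _ u rfl hu

lemma left_supp (hT : IsHecke cs T) (hb : IsBar cs T bar) (hC : IsKLBasis cs T bar D) (i : B)
    (h : H) (y : W) (hy : cs.length y < cs.length (cs.simple i * y)) :
    D.repr (theta (opL cs T) i h) y = 0 := by
  classical
  have key : (D.coord y) ∘ₗ (theta (opL cs T) i) = 0 := by
    apply D.ext
    intro u
    rw [LinearMap.comp_apply, Basis.coord_apply, LinearMap.zero_apply]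
    rcases lt_or_gt_of_ne (len_ne (cs := cs) i u) with h1 | h1
    · rw [thL_down hT hb hC i u h1, map_smul, Finsupp.smul_apply, Basis.repr_self,
        Finsupp.single_apply, if_neg, smul_zero]
      rintro rfl
      omega
    · rw [(isKL_L hC).theta_up (klModL hT hb) i u h1, map_add, Finsupp.add_apply, Basis.repr_self,
        Finsupp.single_apply, if_neg, zero_add, map_sum, Finsupp.finsetSum_apply]
      · apply Finset.sum_eq_zero
        intro z hz
        rw [map_zsmul, Finsupp.smul_apply, Basis.repr_self, Finsupp.single_apply, if_neg,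
          smul_zero]
        rintro rfl
        have := (mem_muSet'.1 hz).2
        omega
      · rintro rfl
        rw [simple_simple] at hy
        omega
  exact LinearMap.congr_fun key h

lemma desc_of_repr (hT : IsHecke cs T) (hb : IsBar cs T bar) (hC : IsKLBasis cs T bar D) (i : B)
    {x z : W} (h : H) (hx : cs.length (cs.simple i * x) < cs.length x)
    (hz : D.repr (D x * h) z ≠ 0) : cs.length (cs.simple i * z) < cs.length z := by
  by_contra hcon
  have hy : cs.length z < cs.length (cs.simple i * z) := by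
    have := len_ne (cs := cs) i z
    omega
  have h1 := left_supp hT hb hC i (D x * h) z hy
  rw [thL_mul, thL_down hT hb hC i x hx, smul_mul_assoc, map_smul, Finsupp.smul_apply,
    smul_eq_mul] at h1
  exact hz ((mul_eq_zero.1 h1).resolve_left ee_ne_zero)

lemma deg_up (hT : IsHecke cs T) (hb : IsBar cs T bar) (hC : IsKLBasis cs T bar D) (i : B)
    {n : ℕ} {a : A} (ha : DegA n a) (z : W) (hz : cs.length z < cs.length (cs.simple i * z)) :
    Deg D n (a • theta (opL cs T) i (D z)) := by
  rw [(isKL_L hC).theta_up (klModL hT hb) i z hz, smul_add, Finset.smul_sum]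
  apply (Deg.basis ha _).add
  apply Deg.sum
  intro y _
  rw [smul_comm]
  exact (Deg.basis ha _).zsmul _

lemma deg_theta (hT : IsHecke cs T) (hb : IsBar cs T bar) (hC : IsKLBasis cs T bar D) (i : B)
    {n : ℕ} {h : H} (hh : Deg D n h) : Deg D (n + 1) (theta (opL cs T) i h) := by
  rw [repr_sum D h, map_sum]
  apply Deg.sum
  intro z _
  rw [map_smul]
  rcases lt_or_gt_of_ne (len_ne (cs := cs) i z) with h1 | h1
  · rw [thL_down hT hb hC i z h1, smul_smul, mul_comm]
    exact Deg.basis (hh z).ee_mul z
  · exact (deg_up hT hb hC i (hh z) z h1).mono (by omega)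

lemma deg_theta' (hT : IsHecke cs T) (hb : IsBar cs T bar) (hC : IsKLBasis cs T bar D) (i : B)
    {n : ℕ} {h : H} (hh : Deg D n h)
    (hs : ∀ z, D.repr h z ≠ 0 → cs.length z < cs.length (cs.simple i * z)) :
    Deg D n (theta (opL cs T) i h) := by
  rw [repr_sum D h, map_sum]
  apply Deg.sum
  intro z hz
  rw [map_smul]
  exact deg_up hT hb hC i (hh z) z (hs z (Finsupp.mem_support_iff.1 hz))

lemma D_one (hT : IsHecke cs T) (hb : IsBar cs T bar) (hC : IsKLBasis cs T bar D) : D 1 = 1 := by
  rw [KL_one (klModL hT hb) (isKL_L hC), nb_apply, cs.length_one, hT.one]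
  simp

end general

variable {W : Type*} [Group W] {cs : CoxeterSystem cube W}
variable {H : Type*} [Ring H] [Algebra A H]
variable {T D : Basis W A H} {bar : H →+* H}

/-- number of non-trivial components -/
def cnt (p : Fin 3 → ℤ) : ℕ :=
  (if p 0 = 0 then 0 else 1) + (if p 1 = 0 then 0 else 1) + (if p 2 = 0 then 0 else 1)

lemma cnt_mono {p q : Fin 3 → ℤ} (h : ∀ j, q j = 0 → p j = 0) : cnt p ≤ cnt q := by
  have h0 := h 0
  have h1 := h 1
  have h2 := h 2
  unfold cnt
  split_ifs <;> simp_all

lemma cnt_act (j : Fin 3) (b : Bool) (p : Fin 3 → ℤ) (h : p j = 0) :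
    cnt (act (j, b) p) = cnt p + 1 := by
  fin_cases j <;> cases b <;> simp at h <;> simp [cnt, act, h] <;> omega

theorem deg_mul (hT : IsHecke cs T) (hb : IsBar cs T bar) (hC : IsKLBasis cs T bar D) (n : ℕ) :
    ∀ x, cs.length x = n → ∀ y, Deg D (cnt (pos cs x)) (D x * D y) := by
  induction n using Nat.strong_induction_on with
  | _ n ih =>
    intro w hw y
    by_cases hw1 : w = 1
    · subst hw1
      rw [D_one hT hb hC, one_mul, ← one_smul A (D y)]
      apply Deg.basis
      intro k hk
      rw [coeff_one, if_neg (by omega)]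
    obtain ⟨⟨j, b⟩, hj⟩ := cs.exists_leftDescent_of_ne_one hw1
    have hj' : cs.length (cs.simple (j, b) * w) + 1 = cs.length w := cs.isLeftDescent_iff.1 hj
    set u := cs.simple (j, b) * w with hu
    have hwu : w = cs.simple (j, b) * u := by rw [hu, simple_simple]
    have hlt : cs.length u < cs.length (cs.simple (j, b) * u) := by rw [← hwu]; omega
    have huw : BLe cs u w := hwu ▸ BLe.simple_step (j, b) hlt
    have hrec := KL_rec (klModL hT hb) (isKL_L hC) (j, b) u hlt
    rw [← hwu] at hrec
    rw [hrec, sub_mul, Finset.sum_mul, ← thL_mul]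
    apply Deg.sub
    · by_cases h0 : pos cs u j = 0
      · rw [hwu, pos_simple_mul, cnt_act j b _ h0]
        exact deg_theta hT hb hC _ (ih _ (by omega) u rfl y)
      · refine (deg_theta' hT hb hC _ (ih _ (by omega) u rfl y) ?_).mono
          (cnt_mono (fun j' h => BLe_pos cs huw j' h))
        intro z hz
        have h1 : ¬ cs.length (cs.simple (j, b) * u) < cs.length u := by omega
        have h2 : cs.length (cs.simple (j, !b) * u) < cs.length u := by
          rw [desc_iff] at h1 ⊢
          cases b <;> simp at h1 ⊢ <;> omega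
        have h3 := desc_of_repr hT hb hC _ _ h2 hz
        have h4 : ¬ cs.length (cs.simple (j, b) * z) < cs.length z := by
          rw [desc_iff] at h3 ⊢
          cases b <;> simp at h3 ⊢ <;> omega
        have := len_ne (cs := cs) (j, b) z
        omega
    · apply Deg.sum
      intro z hz
      rw [smul_mul_assoc]
      apply Deg.zsmul
      have hz1 := (mem_muSet'.1 hz).1
      have hzu := KL_bruhat (klModL hT hb) (isKL_L hC) _ u rfl z hz1
      have hzl : cs.length z ≤ cs.length u := by
        rcases hzu.length with h4 | h4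
        · rw [h4]
        · exact h4.le
      exact (ih _ (by omega) z rfl y).mono
        (cnt_mono (fun j' h => BLe_pos cs (hzu.trans huw) j' h))

/-- `deg h_{x,y,z}` is at most the number of non-trivial components of `z` -/
theorem deg_h (hT : IsHecke cs T) (hb : IsBar cs T bar) (hC : IsKLBasis cs T bar D) (x y z : W) :
    DegA (cnt (pos cs z)) (D.repr (D x * D y) z) := by
  by_cases h : D.repr (D x * D y) z = 0
  · rw [h]; intro k _; rfl
  · have h1 : cnt (pos cs x) ≤ cnt (pos cs z) := by
      apply cnt_mono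
      intro j hj
      by_contra h2
      have h3 : ∃ b : Bool, cs.length (cs.simple (j, b) * x) < cs.length x := by
        rcases lt_or_gt_of_ne h2 with h4 | h4
        · exact ⟨false, by rw [desc_iff]; simpa using h4⟩
        · exact ⟨true, by rw [desc_iff]; simpa using h4⟩
      obtain ⟨b, h3⟩ := h3
      have h4 := desc_of_repr hT hb hC _ _ h3 h
      rw [desc_iff, hj] at h4
      cases b <;> simp at h4
    exact (deg_mul hT hb hC _ x rfl y).mono h1 z

lemma D_step (hT : IsHecke cs T) (hb : IsBar cs T bar) (hC : IsKLBasis cs T bar D) (j : Fin 3)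
    (b : Bool) (u : W) (hu : pos cs u j = 0) :
    D (cs.simple (j, b) * u) = theta (opL cs T) (j, b) (D u) := by
  have hlt : cs.length u < cs.length (cs.simple (j, b) * u) := by
    have h1 : ¬ cs.length (cs.simple (j, b) * u) < cs.length u := by
      rw [desc_iff, hu]; cases b <;> simp
    have := len_ne (cs := cs) (j, b) u
    omega
  rw [KL_rec (klModL hT hb) (isKL_L hC) (j, b) u hlt, Finset.sum_eq_zero, sub_zero]
  intro z hz
  exfalso
  obtain ⟨hz1, hz2⟩ := mem_muSet'.1 hz
  have hzu := KL_bruhat (klModL hT hb) (isKL_L hC) _ u rfl z hz1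
  rw [desc_iff, BLe_pos cs hzu j hu] at hz2
  cases b <;> simp at hz2

end Pool.Agent.H96Z.BG
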