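import Pool.Agent.H96Z.BG.Deg

set_option autoImplicit false

namespace Pool.Agent.H96Z.BG

open Module Polynomial Pool.Agent.Helper703.KL

lemma coeff_sign (n : ℕ) (a : A) (k : ℤ) : ((-1 : A) ^ n * a).coeff k = 0 ↔ a.coeff k = 0 := by
  rcases neg_one_pow_eq_or A n with h | h
  · rw [h, one_mul]
  · rw [h, neg_one_mul, Pool.Agent.Helper703.KL.coeff_neg, neg_eq_zero]

section general

variable {B : Type*} {M : CoxeterMatrix B} {W : Type*} [Group W] {cs : CoxeterSystem M W}
variable {H : Type*} [Ring H] [Algebra A H]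

lemma hc_iff (C : Basis W A H) (x y z : W) (k : ℤ) :
    ((sb cs C).repr (sb cs C x * sb cs C y) z).coeff k = 0 ↔ (hc C x y z).coeff k = 0 := by
  rw [sb_repr, sb_apply, sb_apply, smul_mul_smul_comm, map_smul, Finsupp.smul_apply, smul_eq_mul,
    ← mul_assoc, ← pow_add, ← pow_add, coeff_sign, hc]

lemma aFn_eq (C : Basis W A H) (z : W) (n : ℕ)
    (h1 : ∀ x y, DegA n ((sb cs C).repr (sb cs C x * sb cs C y) z))
    (x y : W) (h2 : ((sb cs C).repr (sb cs C x * sb cs C y) z).coeff n ≠ 0) : aFn C z = n := by
  apply le_antisymm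
  · refine iInf₂_le n ?_
    intro x y k hk
    rw [coeff_v_mul, ← hc_iff (cs := cs)]
    exact h1 x y _ (by omega)
  · refine le_iInf₂ (fun m hm => ?_)
    by_contra hlt
    have h3 : m < n := by
      rw [Nat.cast_le] at hlt
      omega
    apply h2
    have := hm x y ((n : ℤ) - m) (by omega)
    rw [coeff_v_mul, sub_neg_eq_add, sub_add_cancel] at this
    exact (hc_iff C x y z n).2 this

variable {T : Basis W A H} {bar : H →+* H} {P : W → W → ℤ[X]} {C : Basis W A H}

lemma muLt_eq_zero (hT : IsHecke cs T) (hb : IsBar cs T bar) (hK : IsKLData cs T bar P C)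
    (i : B) {y u : W} (hu : cs.length (u * cs.simple i) < cs.length u)
    (hy : cs.length y < cs.length (y * cs.simple i)) (hne : y * cs.simple i ≠ u)
    (hl : cs.length y < cs.length u) : muLt cs P y u = 0 := by
  rw [muLt]
  split_ifs with h
  · obtain ⟨k, hk⟩ := h
    have h1 := (isKL_R (hK.isKLBasis hT hb)).mu_down (klModR (tw_isHecke hT hb) (tw_isBar hT hb))
      i u⁻¹ y⁻¹ (by rw [length_mul_inv_simple, cs.length_inv]; exact hu)
      (by rw [length_mul_inv_simple, cs.length_inv]; exact hy)
    rw [if_neg, mu, invB_repr, inv_inv, inv_inv, hK.nb_repr' hT hb, coeff_v_mul,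
      show -1 - ((cs.length y : ℤ) - cs.length u) = 2 * (k : ℤ) by omega, coeff_aeval_two] at h1
    · rw [show (cs.length u - cs.length y - 1) / 2 = k by omega, h1]
    · intro h2
      apply hne
      rw [← inv_inv u, ← h2, mul_inv_rev, inv_inv, cs.inv_simple]
  · rfl

end general

variable {W : Type*} [Group W] (cs : CoxeterSystem cube W)

/-- the words `a_0^{e_0} a_1^{e_1} a_2^{e_2}` -/
def kw (e : Fin 3 → Bool) : List G :=
  (if e 0 then [(0, false)] else []) ++ ((if e 1 then [(1, false)] else []) ++
    (if e 2 then [(2, false)] else []))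

def K8 (p : Fin 3 → ℤ) : Prop := ∀ j, p j = 0 ∨ p j = -1

instance (p : Fin 3 → ℤ) : Decidable (K8 p) := by unfold K8; infer_instance

lemma eq_kw {z : W} (h : K8 (pos cs z)) : ∃ e, z = cs.wordProd (kw e) := by
  refine ⟨fun j => decide (pos cs z j = -1), pos_inj cs ?_⟩
  rw [pos_word]
  have h0 := h 0
  have h1 := h 1
  have h2 := h 2
  funext j
  rcases h0 with h0 | h0 <;> rcases h1 with h1 | h1 <;> rcases h2 with h2 | h2 <;>
    fin_cases j <;> simp [kw, posL, act, h0, h1, h2]

lemma K8_suffix (n : ℕ) : ∀ z x y : W, cs.length x = n → Red2 cs z x y → K8 (pos cs z) →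
    K8 (pos cs y) := by
  induction n with
  | zero =>
    intro z x y hx h hz
    rw [cs.length_eq_zero_iff] at hx
    rw [h.1, hx, one_mul] at hz
    exact hz
  | succ n ih =>
    intro z x y hx h hz
    have hw1 : x ≠ 1 := by
      rintro rfl
      rw [cs.length_one] at hx
      omega
    obtain ⟨⟨j, b⟩, hj⟩ := cs.exists_leftDescent_of_ne_one hw1
    have hj' := cs.isLeftDescent_iff.1 hj
    have e : cs.simple (j, b) * z = cs.simple (j, b) * x * y := by rw [h.1, mul_assoc]
    have h1 : cs.length (cs.simple (j, b) * z) ≤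
        cs.length (cs.simple (j, b) * x) + cs.length y := by
      rw [e]; exact cs.length_mul_le _ _
    have h2 := cs.length_simple_mul z (j, b)
    have h3 := h.2
    have h4 : cs.length (cs.simple (j, b) * z) < cs.length z := by omega
    apply ih (cs.simple (j, b) * z) (cs.simple (j, b) * x) y (by omega) ⟨e, by omega⟩
    rw [pos_simple_mul]
    rw [desc_iff] at h4
    intro j'
    have h5 := hz j'
    have h6 := hz j
    unfold act
    cases b
    · simp only [Bool.false_eq_true, if_false] at h4 ⊢
      split_ifs with h7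
      · subst h7; omega
      · exact h5
    · simp only [if_true] at h4
      omega

/-- the word of `w = v_0` -/
def l0 : List G := [(0, false), (1, false), (2, false)]
/-- the word of `u = v_1` -/
def l1 : List G := [(1, true), (2, true)]

lemma finPar_word (l : List G) (I : Set G) (hl : ∀ i ∈ l, i ∈ I)
    (hI : ∀ i ∈ I, ∀ k ∈ I, i.1 = k.1 → i = k) : FinPar cs (cs.wordProd l) := by
  refine ⟨I, ?_, ?_⟩
  · induction l with
    | nil => rw [cs.wordProd_nil]; exact one_mem _
    | cons i l ih =>
      rw [cs.wordProd_cons]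
      exact mul_mem (Subgroup.subset_closure ⟨i, hl i (by simp), rfl⟩)
        (ih (fun k hk => hl k (by simp [hk])))
  · have hfin : {p : Fin 3 → ℤ | ∀ j, p j ∈ ({-1, 0, 1} : Set ℤ)}.Finite :=
      Set.Finite.pi' (fun _ => Set.toFinite _)
    have key : ∀ z ∈ Subgroup.closure (cs.simple '' I), ∀ j, pos cs z j = 0 ∨
        ∃ b : Bool, (j, b) ∈ I ∧ pos cs z j = if b then 1 else -1 := by
      intro z hz
      have step : ∀ i ∈ I, ∀ z : W, (∀ j, pos cs z j = 0 ∨
          ∃ b : Bool, (j, b) ∈ I ∧ pos cs z j = if b then 1 else -1) → ∀ j,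
          pos cs (cs.simple i * z) j = 0 ∨
          ∃ b : Bool, (j, b) ∈ I ∧ pos cs (cs.simple i * z) j = if b then 1 else -1 := by
        rintro ⟨j', b'⟩ hi z hz j
        rw [pos_simple_mul]
        unfold act
        by_cases h : j = j'
        · subst h
          rw [if_pos rfl]
          rcases hz j with h1 | ⟨b, h1, h2⟩
          · right
            exact ⟨b', hi, by rw [h1, sub_zero]⟩
          · left
            have := hI _ hi _ h1 rfl
            simp only [Prod.mk.injEq, true_and] at this
            rw [h2, this, sub_self]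
        · rw [if_neg h]
          exact hz j
      induction hz using Subgroup.closure_induction_left with
      | one => intro j; left; rw [pos_one]; rfl
      | mul_left x hx y _ ih =>
        obtain ⟨i, hi, rfl⟩ := hx
        exact step i hi y ih
      | inv_mul_cancel x hx y _ ih =>
        obtain ⟨i, hi, rfl⟩ := hx
        rw [cs.inv_simple]
        exact step i hi y ih
    refine Set.Finite.of_finite_image (f := pos cs) (hfin.subset ?_) (fun a _ b _ h => pos_inj cs h)
    rintro _ ⟨z, hz, rfl⟩ j
    rcases key z hz j with h | ⟨b, _, h⟩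
    · simp [h]
    · cases b <;> simp [h]

variable {cs}
variable {H : Type*} [Ring H] [Algebra A H]
variable {T : Basis W A H} {bar : H →+* H} {P : W → W → ℤ[X]} {C : Basis W A H}

lemma mu_zero (hT : IsHecke cs T) (hb : IsBar cs T bar) (hK : IsKLData cs T bar P C) (b : W)
    (hk : K8 (pos cs b)) :
    muKL cs P (cs.wordProd l0) (cs.wordProd l0 * cs.wordProd l1 * b⁻¹) = 0 := by
  obtain ⟨e, rfl⟩ := eq_kw cs hk
  rw [← cs.wordProd_reverse, ← cs.wordProd_append, ← cs.wordProd_append]
  have hl : cs.length (cs.wordProd l0) < cs.length (cs.wordProd (l0 ++ l1 ++ (kw e).reverse)) := by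
    rw [length_word, length_word]
    clear hk
    revert e
    decide
  have hR : ∀ (l : List G) (i : G), cs.wordProd l * cs.simple i = cs.wordProd (l ++ [i]) := by
    intro l i
    rw [cs.wordProd_append, cs.wordProd_singleton]
  have hne : ∀ l l' : List G, posL l ≠ posL l' → cs.wordProd l ≠ cs.wordProd l' := by
    intro l l' h h'
    apply h
    rw [← pos_word cs, h', pos_word]
  rw [muKL]
  split_ifs with h1 h2
  · by_cases he1 : e 1 = false
    · apply muLt_eq_zero hT hb hK (1, true) _ _ _ hl
      · rw [hR, length_word, length_word]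
        clear h1 hl hk; revert e; decide
      · rw [hR, length_word, length_word]; decide
      · rw [hR]; apply hne
        clear h1 hl hk; revert e; decide
    by_cases he2 : e 2 = false
    · apply muLt_eq_zero hT hb hK (2, true) _ _ _ hl
      · rw [hR, length_word, length_word]
        clear h1 hl hk; revert e; decide
      · rw [hR, length_word, length_word]; decide
      · rw [hR]; apply hne
        clear h1 hl hk; revert e; decide
    by_cases he0 : e 0 = false
    · rw [muLt, if_neg]
      rw [length_word, length_word]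
      clear h1 hl hk; revert e; decide
    · exfalso
      have h3 := BLe_pos cs h1.1 0 (by
        rw [pos_word]
        clear h1 hl hk; revert e; decide)
      rw [pos_word] at h3
      revert h3; decide
  · exfalso
    rcases h2.1.length with h3 | h3
    · exact h2.2 h3
    · omega
  · rfl

lemma D_word_mul (hT : IsHecke cs T) (hb : IsBar cs T bar) {D : Basis W A H}
    (hC : IsKLBasis cs T bar D) (z : W) (l : List G) (hl : (l.map Prod.fst).Nodup)
    (hz : ∀ i ∈ l, cs.length (cs.simple i * z) < cs.length z) :
    D (cs.wordProd l) * D z = ee ^ l.length • D z := by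
  induction l with
  | nil => rw [cs.wordProd_nil, D_one hT hb hC, one_mul, List.length_nil, pow_zero, one_smul]
  | cons i l ih =>
    obtain ⟨j, b⟩ := i
    rw [List.map_cons, List.nodup_cons] at hl
    have h0 : ∀ l : List G, j ∉ l.map Prod.fst → posL l j = 0 := by
      intro l
      induction l with
      | nil => intro _; rfl
      | cons k l ih =>
        intro h
        rw [List.map_cons, List.mem_cons, not_or] at h
        show act k (posL l) j = 0
        unfold act
        rw [if_neg h.1, ih h.2]
    rw [cs.wordProd_cons, D_step hT hb hC j b _ (by rw [pos_word]; exact h0 l hl.1), ← thL_mul,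
      ih hl.2 (fun i hi => hz i (by simp [hi])), map_smul, thL_down hT hb hC _ z (hz _ (by simp)),
      smul_smul, List.length_cons, pow_succ]

lemma coeff_ee_pow (n : ℕ) : DegA n (ee ^ n) ∧ (ee ^ n).coeff n = 1 := by
  induction n with
  | zero =>
    refine ⟨fun k hk => ?_, ?_⟩
    · rw [pow_zero, coeff_one, if_neg (by omega)]
    · rw [pow_zero, coeff_one]; simp
  | succ n ih =>
    rw [pow_succ']
    refine ⟨ih.1.ee_mul, ?_⟩
    rw [coeff_ee, ih.1 (((n + 1 : ℕ) : ℤ) + 1) (by push_cast; omega),
      show ((n + 1 : ℕ) : ℤ) - 1 = n by push_cast; ring, ih.2, add_zero]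

lemma aFn_word (hT : IsHecke cs T) (hb : IsBar cs T bar) (hK : IsKLData cs T bar P C)
    (lz l : List G) (hl : (l.map Prod.fst).Nodup)
    (hz : ∀ i ∈ l, len (posL (i :: lz)) < len (posL lz)) (hn : cnt (posL lz) = l.length) :
    aFn C (cs.wordProd lz) = l.length := by
  have hT' := tw_isHecke hT hb
  have hb' := tw_isBar hT hb
  have hC := hK.isKLBasis hT hb
  apply aFn_eq (cs := cs) C _ _ _ (cs.wordProd l) (cs.wordProd lz)
  · rw [D_word_mul hT' hb' hC _ l hl (fun i hi => by
      rw [← cs.wordProd_cons, length_word, length_word]; exact hz i hi), map_smul,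
      Finsupp.smul_apply, Basis.repr_self, Finsupp.single_eq_same, smul_eq_mul, mul_one,
      (coeff_ee_pow _).2]
    exact one_ne_zero
  · intro x y
    have := deg_h hT' hb' hC x y (cs.wordProd lz)
    rwa [pos_word, hn] at this

lemma a_w (hT : IsHecke cs T) (hb : IsBar cs T bar) (hK : IsKLData cs T bar P C) :
    aFn C (cs.wordProd l0) = 3 :=
  aFn_word hT hb hK l0 l0 (by decide) (by decide) (by decide)

lemma a_u (hT : IsHecke cs T) (hb : IsBar cs T bar) (hK : IsKLData cs T bar P C) :
    aFn C (cs.wordProd l1) = 2 :=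
  aFn_word hT hb hK l1 l1 (by decide) (by decide) (by decide)

lemma a_wu (hT : IsHecke cs T) (hb : IsBar cs T bar) (hK : IsKLData cs T bar P C) :
    aFn C (cs.wordProd l0 * cs.wordProd l1) = 3 := by
  rw [← cs.wordProd_append]
  exact aFn_word hT hb hK (l0 ++ l1) l0 (by decide) (by decide) (by decide)

lemma len_w : cs.length (cs.wordProd l0) = 3 := by rw [length_word]; decide
lemma len_u : cs.length (cs.wordProd l1) = 2 := by rw [length_word]; decide
lemma len_wu : cs.length (cs.wordProd l0 * cs.wordProd l1) = 5 := by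
  rw [← cs.wordProd_append, length_word]; decide

lemma dist_u (hT : IsHecke cs T) (hb : IsBar cs T bar) (hK : IsKLData cs T bar P C) :
    IsDist cs P C (cs.wordProd l1) := by
  have h : (P 1 (cs.wordProd l1)).natDegree = 0 := by
    by_cases h1 : BLe cs 1 (cs.wordProd l1)
    · have := hK.deg _ _ h1 (by
        intro h2
        have h3 := len_u (cs := cs)
        rw [← h2, cs.length_one] at h3
        omega)
      rw [len_u] at this
      omega
    · rw [hK.supp _ _ h1, natDegree_zero]
  rw [IsDist, h, a_u hT hb hK, len_u]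
  simp

lemma finPar_w : FinPar cs (cs.wordProd l0) :=
  finPar_word cs l0 {i | i ∈ l0} (fun _ h => h)
    (show ∀ i ∈ l0, ∀ k ∈ l0, i.1 = k.1 → i = k by decide)

lemma finPar_u : FinPar cs (cs.wordProd l1) :=
  finPar_word cs l1 {i | i ∈ l1} (fun _ h => h)
    (show ∀ i ∈ l1, ∀ k ∈ l1, i.1 = k.1 → i = k by decide)

lemma K8_w : K8 (pos cs (cs.wordProd l0)) := by rw [pos_word]; decide

lemma K8_mid {x y z : W} (h : Red3 cs (cs.wordProd l0) x y z) : K8 (pos cs y) := by
  have h1 := cs.length_mul_le y z
  have h2 := cs.length_mul_le x y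
  have h3 := cs.length_mul_le x (y * z)
  have h4 := cs.length_mul_le (x * y) z
  rw [← mul_assoc, ← h.1] at h3
  rw [← h.1] at h4
  have h5 := h.2
  obtain ⟨e, he⟩ := eq_kw cs (K8_suffix cs _ _ x (y * z) rfl ⟨by rw [h.1, mul_assoc], by omega⟩ K8_w)
  obtain ⟨e', he'⟩ := eq_kw cs (K8_suffix cs _ _ (x * y) z rfl ⟨h.1, by omega⟩ K8_w)
  have : y = cs.wordProd (kw e ++ (kw e').reverse) := by
    rw [cs.wordProd_append, cs.wordProd_reverse, ← he, ← he', mul_inv_cancel_right]
  rw [this, pos_word]
  clear this he he'
  revert e e'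
  decide

theorem exists_data (cs : CoxeterSystem cube W) : ∃ (T : Basis W A (HT cs)) (bar : HT cs →+* HT cs)
    (P : W → W → ℤ[X]) (C : Basis W A (HT cs)),
    IsHecke cs T ∧ IsBar cs T bar ∧ IsKLData cs T bar P C := by
  have hT := TB_isHecke (cs := cs)
  have hb := hT.barR_isBar
  obtain ⟨P, C, hC⟩ := exists_KLData hT hb
  exact ⟨TB cs, hT.barR, P, C, hT, hb, hC⟩

end Pool.Agent.H96Z.BG
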