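import Pool.Agent.H96Z.BG.Defs
import Pool.Agent.Helper703.KL.Bruhat
import Pool.Agent.Helper703.KL.Exist1
import Pool.Agent.Helper703.KL.Exist2

set_option autoImplicit false

namespace Pool.Agent.H96Z.BG

open Module Polynomial Pool.Agent.Helper703.KL

variable {B : Type*} {M : CoxeterMatrix B} {W : Type*} [Group W] {cs : CoxeterSystem M W}
variable {H : Type*} [Ring H] [Algebra A H]
variable {T : Basis W A H} {bar : H →+* H}

/-- the involution `v ↦ v⁻¹` -/
noncomputable abbrev inv' : A ≃ₐ[ℤ] A := LaurentPolynomial.invert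

lemma inv_inv' (a : A) : inv' (inv' a) = a := LaurentPolynomial.involutive_invert a

lemma inv_v (n : ℤ) : inv' (v n) = v (-n) := LaurentPolynomial.invert_T n

lemma v_zero : v 0 = 1 := LaurentPolynomial.T_zero

lemma coeff_v (m n : ℤ) : (v m).coeff n = if m = n then 1 else 0 := by
  have := coeff_v_mul m 1 n
  rw [mul_one, coeff_one] at this
  rw [this]
  by_cases h : m = n
  · simp [h]
  · rw [if_neg (by omega), if_neg h]

lemma v_pow (m : ℤ) (k : ℕ) : v m ^ k = v (k * m) := by
  rw [LaurentPolynomial.T_pow]

lemma aeval_monomial' (m : ℤ) (k : ℕ) (a : ℤ) :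
    aeval (v m) (monomial k a) = a • v (k * m) := by
  rw [aeval_monomial, v_pow, ← Algebra.smul_def]

lemma coeff_aeval_two (P : ℤ[X]) (k : ℕ) : (aeval (v 2) P).coeff (2 * (k : ℤ)) = P.coeff k := by
  induction P using Polynomial.induction_on' with
  | add p q hp hq => rw [map_add, Pool.Agent.Helper703.KL.coeff_add, hp, hq, Polynomial.coeff_add]
  | monomial n a =>
    rw [aeval_monomial', coeff_zsmul, coeff_v, Polynomial.coeff_monomial]
    by_cases h : n = k
    · subst h
      rw [if_pos (by ring), if_pos rfl, mul_one]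
    · rw [if_neg (by omega), if_neg h, mul_zero]

lemma coeff_aeval_ne (P : ℤ[X]) (m : ℤ) (hm : ∀ k : ℕ, m ≠ 2 * (k : ℤ)) :
    (aeval (v 2) P).coeff m = 0 := by
  induction P using Polynomial.induction_on' with
  | add p q hp hq => rw [map_add, Pool.Agent.Helper703.KL.coeff_add, hp, hq, add_zero]
  | monomial n a =>
    rw [aeval_monomial', coeff_zsmul, coeff_v, if_neg, mul_zero]
    intro h
    exact hm n (by omega)

lemma aeval_inj {P Q : ℤ[X]} (h : aeval (v 2) P = aeval (v 2) Q) : P = Q := by
  ext k
  rw [← coeff_aeval_two, ← coeff_aeval_two, h]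

lemma inv_aeval (m : ℤ) (P : ℤ[X]) : inv' (aeval (v m) P) = aeval (v (-m)) P := by
  rw [← inv_v]
  exact (aeval_algHom_apply (inv' : A →ₐ[ℤ] A) (v m) P).symm

lemma barbar_T (hT : IsHecke cs T) (hb : IsBar cs T bar) (n : ℕ) :
    ∀ w, cs.length w = n → bar (bar (T w)) = T w := by
  have hs : ∀ i, bar (bar (T (cs.simple i))) = T (cs.simple i) := by
    intro i
    have h1 := hb.gen i
    have h2 := congrArg bar h1
    rw [map_mul, map_one] at h2
    calc bar (bar (T (cs.simple i))) = bar (bar (T (cs.simple i))) *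
          (bar (T (cs.simple i)) * T (cs.simple i)) := by rw [h1, mul_one]
      _ = T (cs.simple i) := by rw [← mul_assoc, h2, one_mul]
  induction n with
  | zero =>
    intro w hw
    rw [cs.length_eq_zero_iff] at hw
    subst hw
    rw [hT.one, map_one, map_one]
  | succ n ih =>
    intro w hw
    have hw1 : w ≠ 1 := by
      rintro rfl
      rw [cs.length_one] at hw
      omega
    obtain ⟨j, hj⟩ := cs.exists_leftDescent_of_ne_one hw1
    have hj' : cs.length (cs.simple j * w) + 1 = cs.length w := cs.isLeftDescent_iff.1 hj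
    have h1 : T w = T (cs.simple j) * T (cs.simple j * w) := by
      rw [hT.mul_lt j _ (by rw [simple_simple]; omega), simple_simple]
    rw [h1, map_mul, map_mul, hs, ih _ (by omega)]

omit [Group W] in
lemma repr_sum (T : Basis W A H) (h : H) :
    h = ∑ z ∈ (T.repr h).support, T.repr h z • T z := by
  conv_lhs => rw [← T.linearCombination_repr h]
  rw [Finsupp.linearCombination_apply, Finsupp.sum]

lemma barbar (hT : IsHecke cs T) (hb : IsBar cs T bar) (h : H) : bar (bar h) = h := by
  conv_lhs => rw [repr_sum T h]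
  conv_rhs => rw [repr_sum T h]
  rw [map_sum, map_sum]
  apply Finset.sum_congr rfl
  intro z _
  rw [hb.smul, hb.smul, inv_inv', barbar_T hT hb _ z rfl]

/-- the unit `(-q)^n` -/
noncomputable def sg (n : ℕ) : A := (-1) ^ n * v (2 * n)

lemma sg_succ (n : ℕ) : sg (n + 1) = sg 1 * sg n := by
  simp only [sg, pow_succ, pow_zero]
  rw [show (2 * ((n + 1 : ℕ) : ℤ)) = 2 * ((1 : ℕ) : ℤ) + 2 * (n : ℤ) by push_cast; ring, ← v_mul_v]
  ring

lemma neg_one_sq (n : ℕ) : ((-1 : A) ^ n) * (-1) ^ n = 1 := by
  rw [← mul_pow]; simp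

lemma inv_sg_mul (n : ℕ) : inv' (sg n) * sg n = 1 := by
  rw [sg, map_mul, map_pow, map_neg, map_one, inv_v]
  have := neg_one_sq n
  have h2 : v (-(2 * (n : ℤ))) * v (2 * n) = 1 := by rw [v_mul_v]; simp
  linear_combination (v (-(2 * (n : ℤ))) * v (2 * n)) * this + h2

/-- the twisted standard basis `(-q)^{l(w)} bar (T_w)` -/
noncomputable def tw (hT : IsHecke cs T) (hb : IsBar cs T bar) : Basis W A H :=
  Basis.mk (v := fun w => sg (cs.length w) • bar (T w))
    (by
      rw [linearIndependent_iff']
      intro s g hg i hi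
      have h1 := congrArg bar hg
      rw [map_sum, map_zero] at h1
      have h2 : ∑ w ∈ s, (inv' (g w) * inv' (sg (cs.length w))) • T w = 0 := by
        rw [← h1]
        apply Finset.sum_congr rfl
        intro w _
        rw [hb.smul, hb.smul, barbar hT hb, smul_smul]
      have h3 := linearIndependent_iff'.1 T.linearIndependent s _ h2 i hi
      have h4 : inv' (g i) = 0 := by
        have := congrArg (· * sg (cs.length i)) h3
        simp only [zero_mul] at this
        rwa [mul_assoc, inv_sg_mul, mul_one] at this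
      rw [← inv_inv' (g i), h4, map_zero])
    (by
      intro h _
      rw [← barbar hT hb h, repr_sum T (bar h), map_sum]
      apply Submodule.sum_mem
      intro z _
      rw [hb.smul]
      apply Submodule.smul_mem
      have : bar (T z) = inv' (sg (cs.length z)) • (sg (cs.length z) • bar (T z)) := by
        rw [smul_smul, inv_sg_mul, one_smul]
      rw [this]
      exact Submodule.smul_mem _ _ (Submodule.subset_span ⟨z, rfl⟩))

lemma tw_apply (hT : IsHecke cs T) (hb : IsBar cs T bar) (w : W) :
    tw hT hb w = sg (cs.length w) • bar (T w) := by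
  rw [tw, Basis.mk_apply]

lemma tw_repr (hT : IsHecke cs T) (hb : IsBar cs T bar) (h : H) (w : W) :
    (tw hT hb).repr h w = inv' (T.repr (bar h) w * sg (cs.length w)) := by
  classical
  let F : H →ₗ[A] A :=
    { toFun := fun h => inv' (T.repr (bar h) w * sg (cs.length w))
      map_add' := by
        intro a b
        rw [map_add, map_add, Finsupp.add_apply, add_mul, map_add]
      map_smul' := by
        intro a b
        rw [hb.smul, map_smul, Finsupp.smul_apply, smul_eq_mul, mul_assoc, map_mul, inv_inv']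
        rfl }
  have hFG : (tw hT hb).coord w = F := by
    apply (tw hT hb).ext
    intro y
    rw [Basis.coord_apply, Basis.repr_self]
    show _ = inv' (T.repr (bar (tw hT hb y)) w * sg (cs.length w))
    rw [tw_apply, hb.smul, barbar hT hb, map_smul, Finsupp.smul_apply, Basis.repr_self,
      Finsupp.single_apply, smul_eq_mul]
    split_ifs with h
    · subst h
      rw [mul_one, inv_sg_mul, map_one]
    · simp
  exact LinearMap.congr_fun hFG h

lemma T_mul_bar (hT : IsHecke cs T) (hb : IsBar cs T bar) (i : B) :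
    T (cs.simple i) * bar (T (cs.simple i)) = 1 := by
  have h2 := congrArg bar (hb.gen i)
  rwa [map_mul, map_one, barbar hT hb] at h2

lemma sg_one : sg 1 = - v 2 := by simp [sg]

lemma tw_isHecke (hT : IsHecke cs T) (hb : IsBar cs T bar) : IsHecke cs (tw hT hb) where
  one := by
    rw [tw_apply, cs.length_one, hT.one, map_one]
    simp [sg]
  mul_lt := by
    intro i w h
    have h2 : cs.length (cs.simple i * w) = cs.length w + 1 := by
      rcases cs.length_simple_mul w i with h | h <;> omega
    rw [tw_apply, tw_apply, tw_apply, smul_mul_smul_comm, ← map_mul, hT.mul_lt i w h, h2,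
      cs.length_simple, sg_succ (cs.length w)]
  quad := by
    intro i
    have h1 := congrArg bar (hT.sq i)
    rw [map_mul, map_add, hb.smul, hb.smul, map_one, map_sub, map_one, inv_v] at h1
    rw [tw_apply, cs.length_simple, sg_one, Algebra.algebraMap_eq_smul_one]
    set X := bar (T (cs.simple i))
    have e : v 2 * v (-2) = 1 := by rw [v_mul_v]; simp
    rw [sub_mul, mul_add, mul_add, smul_mul_smul_comm, h1, mul_one, smul_mul_smul_comm, one_mul,
      mul_one]
    linear_combination (norm := module) (v 2 * e) • X + (v 2 * e) • (1 : H)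

lemma tw_isBar (hT : IsHecke cs T) (hb : IsBar cs T bar) : IsBar cs (tw hT hb) bar where
  scalar := hb.scalar
  gen := by
    intro i
    rw [tw_apply, hb.smul, barbar hT hb, smul_mul_smul_comm, T_mul_bar hT hb, inv_sg_mul, one_smul]

/-- the basis with signs `(-1)^{l(w)}` -/
noncomputable def sb (cs : CoxeterSystem M W) (C : Basis W A H) : Basis W A H :=
  C.isUnitSMul (w := fun w => (-1 : A) ^ cs.length w)
    (fun w => (isUnit_one.neg).pow (cs.length w))

lemma sb_apply (C : Basis W A H) (w : W) : sb cs C w = (-1 : A) ^ cs.length w • C w := by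
  rw [sb, Basis.isUnitSMul_apply]

lemma sb_repr (C : Basis W A H) (h : H) (w : W) :
    (sb cs C).repr h w = (-1 : A) ^ cs.length w * C.repr h w := by
  classical
  have hFG : (sb cs C).coord w = (-1 : A) ^ cs.length w • C.coord w := by
    apply (sb cs C).ext
    intro y
    rw [Basis.coord_apply, Basis.repr_self, LinearMap.smul_apply, sb_apply, map_smul,
      Basis.coord_apply, Basis.repr_self, smul_eq_mul, smul_eq_mul, Finsupp.single_apply]
    split_ifs with h
    · subst h
      rw [mul_one, neg_one_sq]
    · simp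
  exact LinearMap.congr_fun hFG h

lemma bar_sign (hb : IsBar cs T bar) (n : ℕ) (h : H) :
    bar ((-1 : A) ^ n • h) = (-1 : A) ^ n • bar h := by
  rw [hb.smul, map_pow, map_neg, map_one]

variable {P : W → W → ℤ[X]} {C : Basis W A H}

lemma IsKLData.nb_repr' (hT : IsHecke cs T) (hb : IsBar cs T bar) (hK : IsKLData cs T bar P C)
    (w y : W) : (nb cs (tw hT hb)).repr (sb cs C w) y =
      v ((cs.length y : ℤ) - cs.length w) * aeval (v 2) (P y w) := by
  rw [nb_repr, tw_repr, sb_apply, bar_sign hb, hK.bar_eq, map_smul, Finsupp.smul_apply, hK.repr,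
    smul_eq_mul, sg]
  simp only [map_mul, map_pow, map_neg, map_one, inv_v, inv_aeval, neg_neg, pow_add]
  have e1 := neg_one_sq (cs.length w)
  have e2 := neg_one_sq (cs.length y)
  have e3 : v (cs.length y : ℤ) * (v (-((cs.length w : ℤ) - 2 * (cs.length y : ℤ))) *
      v (-(2 * (cs.length y : ℤ)))) = v ((cs.length y : ℤ) - cs.length w) := by
    rw [v_mul_v, v_mul_v]; congr 1; ring
  rw [← e3]
  set a := (-1 : A) ^ cs.length w
  set b := (-1 : A) ^ cs.length y
  set c := v (cs.length y : ℤ) * (v (-((cs.length w : ℤ) - 2 * (cs.length y : ℤ))) *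
      v (-(2 * (cs.length y : ℤ)))) * aeval (v 2) (P y w) with hc
  calc _ = (a * a) * (b * b) * c := by rw [hc]; ring
    _ = c := by rw [e1, e2]; ring

lemma IsKLData.isKLBasis (hT : IsHecke cs T) (hb : IsBar cs T bar) (hK : IsKLData cs T bar P C) :
    IsKLBasis cs (tw hT hb) bar (sb cs C) where
  bar_eq := by
    intro w
    rw [sb_apply, bar_sign hb, hK.bar_eq]
  diag := by
    intro w
    have h := hK.nb_repr' hT hb w w
    rw [nb_repr, hK.diag, map_one, sub_self, v_zero, mul_one] at h
    have h2 := congrArg (v (-(cs.length w : ℤ)) * ·) h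
    simp only [mul_one] at h2
    rwa [← mul_assoc, v_mul_v, neg_add_cancel, v_zero, one_mul] at h2
  neg := by
    intro w y hy n hn
    rw [← nb_repr, hK.nb_repr' hT hb, coeff_v_mul]
    by_cases hle : BLe cs y w
    · have hd := hK.deg y w hle hy
      by_cases hk : ∃ k : ℕ, n - ((cs.length y : ℤ) - cs.length w) = 2 * (k : ℤ)
      · obtain ⟨k, hk⟩ := hk
        rw [hk, coeff_aeval_two]
        apply coeff_eq_zero_of_natDegree_lt
        omega
      · exact coeff_aeval_ne _ _ (fun k h => hk ⟨k, h⟩)
    · rw [hK.supp y w hle, map_zero, Pool.Agent.Helper703.KL.coeff_zero]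

section exist

variable {V : Type*} [AddCommGroup V] [Module A V]
variable {N : Basis W A V} {L : B → V →ₗ[A] V} {br : V →+ V} {D : W → V}

lemma mem_muSet' {i : B} {u z : W} :
    z ∈ muSet cs N D i u ↔ N.repr (D u) z ≠ 0 ∧ cs.length (cs.simple i * z) < cs.length z := by
  classical
  rw [muSet, Finset.mem_filter, Finsupp.mem_support_iff]

lemma KL_one (hM : KLMod cs N L br) (hC : IsKL N br D) : D 1 = N 1 := by
  classical
  apply N.ext_elem
  intro y
  rw [Basis.repr_self, Finsupp.single_apply]
  split_ifs with h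
  · rw [← h, hC.diag]
  · by_contra hne
    rcases hC.supp hM 1 y hne with h1 | h1
    · exact h h1.symm
    · rw [cs.length_one] at h1; omega

lemma KL_rec (hM : KLMod cs N L br) (hC : IsKL N br D) (i : B) (u : W)
    (hu : cs.length u < cs.length (cs.simple i * u)) :
    D (cs.simple i * u) = theta L i (D u) - ∑ z ∈ muSet cs N D i u, mu N D z u • D z := by
  rw [hC.theta_up hM i u hu]; abel

lemma KL_bruhat (hM : KLMod cs N L br) (hC : IsKL N br D) (n : ℕ) :
    ∀ w, cs.length w = n → ∀ y, N.repr (D w) y ≠ 0 → BLe cs y w := by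
  classical
  induction n using Nat.strong_induction_on with
  | _ n ih =>
    intro w hw y hy
    by_cases hw1 : w = 1
    · subst hw1
      rcases hC.supp hM 1 y hy with h1 | h1
      · rw [h1]; exact Relation.ReflTransGen.refl
      · rw [cs.length_one] at h1; omega
    obtain ⟨i, hj⟩ := cs.exists_leftDescent_of_ne_one hw1
    have hj' : cs.length (cs.simple i * w) + 1 = cs.length w := cs.isLeftDescent_iff.1 hj
    set u := cs.simple i * w with hu
    have hwu : w = cs.simple i * u := by rw [hu, simple_simple]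
    have hlt : cs.length u < cs.length (cs.simple i * u) := by rw [← hwu]; omega
    have hdm : dmax cs i u = w := by rw [dmax, if_pos hlt, ← hwu]
    have huw : BLe cs u w := hdm ▸ dmax_self i u
    rw [hwu, KL_rec hM hC i u hlt, map_sub, Finsupp.sub_apply, hM.repr_theta, map_sum,
      Finsupp.finsetSum_apply] at hy
    by_contra hcon
    apply hy
    have h1 : N.repr (D u) (cs.simple i * y) = 0 := by
      by_contra h
      have := (BLe.lift i (ih _ (by omega) u rfl _ h)).2
      rw [simple_simple, hdm] at this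
      exact hcon this
    have h2 : N.repr (D u) y = 0 := by
      by_contra h
      exact hcon ((ih _ (by omega) u rfl _ h).trans huw)
    rw [h1, h2, mul_zero, add_zero, zero_sub, neg_eq_zero]
    apply Finset.sum_eq_zero
    intro z hz
    have hz1 := (mem_muSet'.1 hz).1
    have h3 : N.repr (D z) y = 0 := by
      by_contra h
      have hzl : cs.length z ≤ cs.length u := by
        rcases hC.supp hM u z hz1 with h4 | h4
        · rw [h4]
        · exact h4.le
      exact hcon (((ih _ (by omega) z rfl _ h).trans (ih _ (by omega) u rfl _ hz1)).trans huw)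
    rw [map_zsmul, Finsupp.smul_apply, h3, smul_zero]

lemma KL_poly (hM : KLMod cs N L br) (hC : IsKL N br D) (n : ℕ) :
    ∀ w, cs.length w = n → ∀ y, ∃ Q : ℤ[X],
      N.repr (D w) y = v ((cs.length y : ℤ) - cs.length w) * aeval (v 2) Q := by
  classical
  induction n using Nat.strong_induction_on with
  | _ n ih =>
    intro w hw y
    by_cases hw1 : w = 1
    · subst hw1
      rw [KL_one hM hC, Basis.repr_self, Finsupp.single_apply]
      split_ifs with h
      · exact ⟨1, by rw [← h, sub_self, v_zero, map_one, mul_one]⟩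
      · exact ⟨0, by simp⟩
    obtain ⟨i, hj⟩ := cs.exists_leftDescent_of_ne_one hw1
    have hj' : cs.length (cs.simple i * w) + 1 = cs.length w := cs.isLeftDescent_iff.1 hj
    set u := cs.simple i * w with hu
    have hwu : w = cs.simple i * u := by rw [hu, simple_simple]
    have hlt : cs.length u < cs.length (cs.simple i * u) := by rw [← hwu]; omega
    have hlw : (cs.length w : ℤ) = cs.length u + 1 := by omega
    have key : ∀ (m : ℤ) (k : ℕ) (Q : ℤ[X]), m = (cs.length y : ℤ) - cs.length w + 2 * k →
        v m * aeval (v 2) Q = v ((cs.length y : ℤ) - cs.length w) * aeval (v 2) (X ^ k * Q) := by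
      intro m k Q hm
      rw [map_mul, map_pow, aeval_X, v_pow, ← mul_assoc, v_mul_v, hm]
      congr 2; ring
    have hsum : ∃ Q : ℤ[X], ∑ z ∈ muSet cs N D i u, N.repr (mu N D z u • D z) y =
        v ((cs.length y : ℤ) - cs.length w) * aeval (v 2) Q := by
      apply Finset.sum_induction _
        (fun a => ∃ Q : ℤ[X], a = v ((cs.length y : ℤ) - cs.length w) * aeval (v 2) Q)
      · rintro _ _ ⟨Q1, rfl⟩ ⟨Q2, rfl⟩
        exact ⟨Q1 + Q2, by rw [map_add, mul_add]⟩
      · exact ⟨0, by simp⟩
      · intro z hz
        by_cases hmu : mu N D z u = 0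
        · exact ⟨0, by simp [hmu]⟩
        have hz1 := (mem_muSet'.1 hz).1
        have hzl : cs.length z ≤ cs.length u := by
          rcases hC.supp hM u z hz1 with h4 | h4
          · rw [h4]
          · exact h4.le
        obtain ⟨Q1, hQ1⟩ := ih _ (by omega) u rfl z
        obtain ⟨Q2, hQ2⟩ := ih _ (by omega) z rfl y
        have hk : ∃ k : ℕ, -1 - ((cs.length z : ℤ) - cs.length u) = 2 * (k : ℤ) := by
          by_contra hk
          apply hmu
          rw [mu, hQ1, coeff_v_mul]
          exact coeff_aeval_ne _ _ (fun k h => hk ⟨k, h⟩)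
        obtain ⟨k, hk⟩ := hk
        refine ⟨mu N D z u • (X ^ (k + 1) * Q2), ?_⟩
        rw [map_zsmul, Finsupp.smul_apply, hQ2, key _ (k + 1) Q2 (by push_cast; omega),
          map_zsmul, mul_smul_comm]
    obtain ⟨Q0, hQ0⟩ := hsum
    obtain ⟨Q1, hQ1⟩ := ih _ (by omega) u rfl (cs.simple i * y)
    obtain ⟨Q2, hQ2⟩ := ih _ (by omega) u rfl y
    have hD : N.repr (D w) y = N.repr (D u) (cs.simple i * y) +
        (if cs.length (cs.simple i * y) < cs.length y then v 1 else v (-1)) * N.repr (D u) y -
        ∑ z ∈ muSet cs N D i u, N.repr (mu N D z u • D z) y := by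
      conv_lhs => rw [hwu, KL_rec hM hC i u hlt, map_sub, Finsupp.sub_apply, hM.repr_theta,
        map_sum, Finsupp.finsetSum_apply]
    rw [hD, hQ0, hQ1, hQ2]
    rcases cs.length_simple_mul y i with h | h
    · rw [if_neg (by omega), ← mul_assoc, v_mul_v, key _ 1 Q1 (by omega), key _ 0 Q2 (by omega)]
      exact ⟨X ^ 1 * Q1 + X ^ 0 * Q2 - Q0, by rw [map_sub, map_add]; ring⟩
    · rw [if_pos (by omega), ← mul_assoc, v_mul_v, key _ 0 Q1 (by omega), key _ 1 Q2 (by omega)]
      exact ⟨X ^ 0 * Q1 + X ^ 1 * Q2 - Q0, by rw [map_sub, map_add]; ring⟩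

end exist

lemma v_ne_zero (m : ℤ) : v m ≠ 0 := (LaurentPolynomial.isUnit_T m).ne_zero

theorem exists_KLData (hT : IsHecke cs T) (hb : IsBar cs T bar) :
    ∃ (P : W → W → ℤ[X]) (C : Basis W A H), IsKLData cs T bar P C := by
  have hT' := tw_isHecke hT hb
  have hb' := tw_isBar hT hb
  obtain ⟨D, hD⟩ := exists_KLBasis hT' hb'
  have hM := klModL hT' hb'
  have hC := isKL_L hD
  choose Q hQ using fun y w => KL_poly hM hC _ w rfl y
  refine ⟨Q, sb cs D, ?_, ?_, ?_, ?_, ?_⟩
  · intro y w h
    have h1 : (nb cs (tw hT hb)).repr (D w) y = 0 := by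
      by_contra h2
      exact h (KL_bruhat hM hC _ w rfl y h2)
    rw [hQ] at h1
    apply aeval_inj
    rw [map_zero]
    exact (mul_eq_zero.1 h1).resolve_left (v_ne_zero _)
  · intro w
    have h1 := hC.diag w
    rw [hQ, sub_self, v_zero, one_mul] at h1
    apply aeval_inj
    rw [h1, map_one]
  · intro y w h hne
    by_cases h0 : Q y w = 0
    · rcases h.length with h1 | h1
      · exact absurd h1 hne
      · rw [h0, natDegree_zero]; omega
    · by_contra hcon
      have h1 := hC.neg w y hne ((cs.length y : ℤ) - cs.length w + 2 * ((Q y w).natDegree : ℤ))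
        (by omega)
      rw [hQ, coeff_v_mul, add_sub_cancel_left, coeff_aeval_two] at h1
      exact h0 (leadingCoeff_eq_zero.1 h1)
  · intro w y
    have h1 := hQ y w
    rw [nb_repr, tw_repr, hD.bar_eq] at h1
    have h2 := congrArg inv' h1
    rw [map_mul, inv_inv', map_mul, inv_v, inv_v, inv_aeval, sg] at h2
    rw [sb_apply, map_smul, Finsupp.smul_apply, smul_eq_mul, pow_add]
    have e2 := neg_one_sq (cs.length y)
    have e3 : v (-(cs.length y : ℤ)) * v (2 * (cs.length y : ℤ)) * v (-(cs.length y : ℤ)) = 1 := by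
      rw [v_mul_v, v_mul_v, ← v_zero]; congr 1; ring
    have e4 : v (-((cs.length y : ℤ) - cs.length w)) * v (-(cs.length y : ℤ)) =
        v ((cs.length w : ℤ) - 2 * (cs.length y : ℤ)) := by
      rw [v_mul_v]; congr 1; ring
    rw [← e4]
    set a := (-1 : A) ^ cs.length w
    set b := (-1 : A) ^ cs.length y
    set r := T.repr (D w) y
    linear_combination (a * b * v (-(cs.length y : ℤ))) * h2 - (a * r * (b * b)) * e3 - a * r * e2
  · intro w
    rw [sb_apply, bar_sign hb, hD.bar_eq]

end Pool.Agent.H96Z.BG
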